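import Pool.Agent.E8helper55.RN.Main

/-!
# The Hilbert function of the rank-nullity ring of a matroid need not be log-concave

Definitions (file `Pool/Agent/E8helper55/RN/Defs.lean`): for a matroid `M` on `Fin n`,
`hilbert M d` is the rank of `R^*(M) ∩ A^d(U_{n,n})`, where `A^*(U_{n,n})` is the quotient of
`ℤ[x_S : ∅ ≠ S ⊆ [n]]` by the products `x_S x_T` of incomparable sets and the linear forms
`∑_{S ∋ e} x_S`, and `R^*(M)` is the subring generated by the
`y_{i,j} = ∑_{rk S = i, null S = j} x_S`.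

`pairs k` (file `Pool/Agent/E8helper55/RN/Main.lean`) is the direct sum of `k` copies of the
uniform matroid `U_{1,2}` on `n = 2k` elements.
-/

namespace Pool.Agent.Results.MP_d1a043_co.NotLogConcaveH55

open Pool.Agent.E8helper55.RN

/-- **Q2 is false.** There are matroids whose rank-nullity ring has a Hilbert function that is not
log-concave. In fact for `M = U_{1,2} ⊕ ... ⊕ U_{1,2}` (`k` copies, `n = 2k`) and every constant
`C`, the inequality `C * h(n-2)^2 < h(n-3) * h(n-1)` holds as soon as `k` is large enough. -/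
theorem result :
    (¬ ∀ n : ℕ, 1 ≤ n → ∀ M : Matroid (Fin n), M.E = Set.univ → ∀ d : ℕ, 1 ≤ d →
      hilbert M (d - 1) * hilbert M (d + 1) ≤ hilbert M d ^ 2) ∧
    ∀ C : ℕ, ∃ k₀ : ℕ, ∀ k ≥ k₀,
      C * hilbert (pairs k) (k * 2 - 2) ^ 2
        < hilbert (pairs k) (k * 2 - 3) * hilbert (pairs k) (k * 2 - 1) := by
  refine ⟨fun hall => ?_, main⟩
  obtain ⟨k₀, hk₀⟩ := main 1
  have h1 := hk₀ (k₀ + 2) (by omega)
  have h2 := hall ((k₀ + 2) * 2) (by omega) (pairs (k₀ + 2)) (pairs_E _) ((k₀ + 2) * 2 - 2)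
    (by omega)
  rw [show (k₀ + 2) * 2 - 2 - 1 = (k₀ + 2) * 2 - 3 by omega,
    show (k₀ + 2) * 2 - 2 + 1 = (k₀ + 2) * 2 - 1 by omega] at h2
  rw [one_mul] at h1
  exact absurd h2 (not_le.2 h1)

end Pool.Agent.Results.MP_d1a043_co.NotLogConcaveH55
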